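import Pool.Agent.Y522.Stm6

/-!
# Project SH3: positivity of the derivative of the mollification
-/

set_option autoImplicit false

open Set Filter Topology Metric Function MeasureTheory
open scoped Manifold ContDiff

noncomputable section

namespace Pool.Agent.Y270.SH

open Pool.Agent.Y522

theorem kr_nonneg (n : ℕ) (s : E n) : 0 ≤ kr n s := (bmp n).nonneg_normed s

theorem kr_zero (n : ℕ) {s : E n} (h : s ∉ closedBall (0 : E n) 1) : kr n s = 0 := by
  by_contra h0
  have h1 : s ∈ support (kr n) := h0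
  unfold kr at h1
  rw [(bmp n).support_normed_eq] at h1
  exact h (ball_subset_closedBall h1)

theorem kr_cont (n : ℕ) : Continuous (kr n) := (bmp n).continuous_normed

theorem kr_in (n : ℕ) : ∃ k0 : ℝ, 0 < k0 ∧ ∀ s ∈ closedBall (0 : E n) (1 / 2), kr n s = k0 := by
  refine ⟨1 / ∫ x, bmp n x, div_pos one_pos (bmp n).integral_pos, fun s hs => ?_⟩
  unfold kr
  rw [ContDiffBump.normed_def, (bmp n).one_of_mem_closedBall hs]

theorem pt_mem {n : ℕ} {y s : E n} {a : ℝ} (h0 : 0 ≤ a) (h1 : a ≤ 1 / 4) (hy : ‖y‖ ≤ 5 / 4)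
    (hs : s ∈ closedBall (0 : E n) 1) : ‖y + a • s‖ ≤ 3 / 2 := by
  rw [mem_closedBall_zero_iff] at hs
  calc ‖y + a • s‖ ≤ ‖y‖ + ‖a • s‖ := norm_add_le _ _
    _ = ‖y‖ + a * ‖s‖ := by rw [norm_smul, Real.norm_eq_abs, abs_of_nonneg h0]
    _ ≤ 5 / 4 + 1 / 4 * 1 := by gcongr
    _ = 3 / 2 := by norm_num

theorem moll_eq {n : ℕ} {G : E n → E n} {c : E n → ℝ} (ℓ : E n →L[ℝ] ℝ)
    (hG : ContinuousOn G (closedBall 0 2)) {y : E n} (h0 : 0 ≤ c y) (h1 : c y ≤ 1 / 4)
    (hy : ‖y‖ ≤ 5 / 4) :
    ℓ (Moll n G c y) = ∫ s in closedBall (0 : E n) 1, kr n s * ℓ (G (y + c y • s)) := by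
  have hcont : ContinuousOn (fun s => kr n s • G (y + c y • s)) (closedBall (0 : E n) 1) := by
    apply ContinuousOn.smul (kr_cont n).continuousOn
    apply hG.comp (by fun_prop)
    intro s hs
    rw [mem_closedBall_zero_iff]
    linarith [pt_mem h0 h1 hy hs]
  have hint : IntegrableOn (fun s => kr n s • G (y + c y • s)) (closedBall (0 : E n) 1) :=
    hcont.integrableOn_compact (isCompact_closedBall _ _)
  unfold Moll
  rw [← setIntegral_eq_integral_of_forall_compl_eq_zero (s := closedBall (0 : E n) 1)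
    (fun s hs => by rw [kr_zero n hs, zero_smul]), ← ContinuousLinearMap.integral_comp_comm _ hint]
  apply setIntegral_congr_fun measurableSet_closedBall
  intro s _
  simp

/-- the telescoping estimate -/
theorem tele {n : ℕ} {ψ : E n → ℝ} (hψ : ContinuousOn ψ (closedBall 0 (5 / 4))) {u : E n}
    (hu : ‖u‖ = 1) (hmono : ∀ (s : E n) (τ : ℝ), 0 < τ → ‖s‖ ≤ 5 / 4 → ‖s + τ • u‖ ≤ 5 / 4 →
      ψ s < ψ (s + τ • u)) :
    ∃ m : ℝ, 0 < m ∧ ∀ (N : ℕ) (σ : ℝ), 1 ≤ N → N * σ = 1 / 4 →
      m ≤ N * ∫ s in closedBall (0 : E n) 1, kr n s * (ψ (s + σ • u) - ψ s) := by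
  obtain ⟨k0, hk0, hkr⟩ := kr_in n
  have hnu : ∀ (s : E n) (τ : ℝ), 0 ≤ τ → ‖s + τ • u‖ ≤ ‖s‖ + τ := by
    intro s τ hτ
    calc ‖s + τ • u‖ ≤ ‖s‖ + ‖τ • u‖ := norm_add_le _ _
      _ = ‖s‖ + τ := by rw [norm_smul, hu, Real.norm_eq_abs, abs_of_nonneg hτ, mul_one]
  -- integrability of translates
  have hcont : ∀ (r τ : ℝ), 0 ≤ τ → r + τ ≤ 5 / 4 →
      ContinuousOn (fun s => ψ (s + τ • u)) (closedBall (0 : E n) r) := by
    intro r τ hτ hr
    apply hψ.comp (by fun_prop)
    intro s hs
    rw [mem_closedBall_zero_iff] at hs ⊢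
    linarith [hnu s τ hτ]
  have hint : ∀ (r τ : ℝ), 0 ≤ τ → r + τ ≤ 5 / 4 →
      IntegrableOn (fun s => ψ (s + τ • u)) (closedBall (0 : E n) r) := fun r τ hτ hr =>
    (hcont r τ hτ hr).integrableOn_compact (isCompact_closedBall _ _)
  obtain ⟨I, hI⟩ : ∃ I : ℝ → ℝ, I = fun τ => ∫ s in closedBall (0 : E n) (1 / 4), ψ (s + τ • u) :=
    ⟨_, rfl⟩
  have hpos : 0 < I (1 / 4) - I 0 := by
    rw [hI]
    simp only
    rw [← integral_sub (hint _ _ (by norm_num) (by norm_num)) (hint _ _ le_rfl (by norm_num))]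
    have hc : ContinuousOn (fun s => ψ (s + (1 / 4 : ℝ) • u) - ψ (s + (0 : ℝ) • u))
        (closedBall (0 : E n) (1 / 4)) :=
      (hcont _ _ (by norm_num) (by norm_num)).sub (hcont _ _ le_rfl (by norm_num))
    have hp : ∀ s ∈ closedBall (0 : E n) (1 / 4),
        0 < ψ (s + (1 / 4 : ℝ) • u) - ψ (s + (0 : ℝ) • u) := by
      intro s hs
      rw [mem_closedBall_zero_iff] at hs
      rw [zero_smul, add_zero]
      have := hmono s (1 / 4) (by norm_num) (by linarith)
        (by linarith [hnu s (1 / 4) (by norm_num)])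
      linarith
    rw [setIntegral_pos_iff_support_of_nonneg_ae]
    · refine lt_of_lt_of_le (measure_ball_pos volume (0 : E n) (r := 1 / 4) (by norm_num)) ?_
      apply measure_mono
      intro s hs
      exact ⟨(hp s (ball_subset_closedBall hs)).ne', ball_subset_closedBall hs⟩
    · rw [EventuallyLE, ae_restrict_iff' measurableSet_closedBall]
      exact Eventually.of_forall fun s hs => (hp s hs).le
    · exact hc.integrableOn_compact (isCompact_closedBall _ _)
  refine ⟨k0 * (I (1 / 4) - I 0), mul_pos hk0 hpos, ?_⟩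
  intro N σ hN hσ
  have hN0 : (0 : ℝ) < N := by exact_mod_cast hN
  have hN1 : (1 : ℝ) ≤ N := by exact_mod_cast hN
  have hσ0 : 0 < σ := by
    by_contra h
    push Not at h
    nlinarith
  have hσ1 : σ ≤ 1 / 4 := by nlinarith
  obtain ⟨J, hJ⟩ : ∃ J : ℝ, J = ∫ s in closedBall (0 : E n) (1 / 2), (ψ (s + σ • u) - ψ s) :=
    ⟨_, rfl⟩
  have hcd : ∀ r : ℝ, r + σ ≤ 5 / 4 →
      ContinuousOn (fun s => ψ (s + σ • u) - ψ s) (closedBall (0 : E n) r) := by
    intro r hr
    exact (hcont r σ hσ0.le hr).sub (hψ.mono (closedBall_subset_closedBall (by linarith)))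
  have hdpos : ∀ s ∈ closedBall (0 : E n) 1, 0 ≤ ψ (s + σ • u) - ψ s := by
    intro s hs
    rw [mem_closedBall_zero_iff] at hs
    have := hmono s σ hσ0 (by linarith) (by linarith [hnu s σ hσ0.le])
    linarith
  -- step a
  have ha : k0 * J ≤ ∫ s in closedBall (0 : E n) 1, kr n s * (ψ (s + σ • u) - ψ s) := by
    have h1 : k0 * J = ∫ s in closedBall (0 : E n) (1 / 2), kr n s * (ψ (s + σ • u) - ψ s) := by
      rw [hJ, ← integral_const_mul]
      apply setIntegral_congr_fun measurableSet_closedBall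
      intro s hs
      simp only
      rw [hkr s hs]
    rw [h1]
    apply setIntegral_mono_set
    · exact ((kr_cont n).continuousOn.mul (hcd 1 (by linarith))).integrableOn_compact
        (isCompact_closedBall _ _)
    · rw [EventuallyLE, ae_restrict_iff' measurableSet_closedBall]
      exact Eventually.of_forall fun s hs => mul_nonneg (kr_nonneg n s) (hdpos s hs)
    · exact (closedBall_subset_closedBall (by norm_num)).eventuallyLE
  -- step b
  have hb : ∀ k : ℕ, k < N → I (((k + 1 : ℕ) : ℝ) * σ) - I ((k : ℝ) * σ) ≤ J := by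
    intro k hk
    have hk1 : ((k + 1 : ℕ) : ℝ) ≤ N := by exact_mod_cast hk
    push_cast at hk1
    have hk0' : (0 : ℝ) ≤ k := by positivity
    have hks : ((k : ℝ) + 1) * σ ≤ 1 / 4 := by nlinarith
    have hks0 : 0 ≤ (k : ℝ) * σ := by positivity
    obtain ⟨v, hv⟩ : ∃ v : E n, v = ((k : ℝ) * σ) • u := ⟨_, rfl⟩
    have hvn : ‖v‖ = (k : ℝ) * σ := by
      rw [hv, norm_smul, hu, Real.norm_eq_abs, abs_of_nonneg hks0, mul_one]
    have h1 : I (((k + 1 : ℕ) : ℝ) * σ) - I ((k : ℝ) * σ) =
        ∫ s in closedBall (0 : E n) (1 / 4), (ψ (s + v + σ • u) - ψ (s + v)) := by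
      rw [hI]
      simp only
      rw [← integral_sub (hint _ _ (by positivity) (by push_cast; linarith))
        (hint _ _ hks0 (by linarith))]
      apply setIntegral_congr_fun measurableSet_closedBall
      intro s _
      simp only
      rw [hv, add_assoc, ← add_smul]
      push_cast
      rw [add_mul, one_mul]
    have h2 : ∫ s in closedBall (0 : E n) (1 / 4), (ψ (s + v + σ • u) - ψ (s + v)) =
        ∫ s in closedBall v (1 / 4), (ψ (s + σ • u) - ψ s) := by
      rw [← integral_indicator measurableSet_closedBall,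
        ← integral_indicator measurableSet_closedBall,
        ← integral_add_right_eq_self ((closedBall v (1 / 4)).indicator
          fun s => ψ (s + σ • u) - ψ s) v]
      apply integral_congr_ae
      refine Eventually.of_forall fun s => ?_
      by_cases hs : s ∈ closedBall (0 : E n) (1 / 4)
      · have hs' : s + v ∈ closedBall v (1 / 4) := by
          rw [mem_closedBall, dist_eq_norm, add_sub_cancel_right]
          rwa [mem_closedBall_zero_iff] at hs
        simp only [Set.indicator_of_mem hs, Set.indicator_of_mem hs']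
      · have hs' : s + v ∉ closedBall v (1 / 4) := by
          rw [mem_closedBall, dist_eq_norm, add_sub_cancel_right]
          rwa [mem_closedBall_zero_iff] at hs
        simp only [Set.indicator_of_notMem hs, Set.indicator_of_notMem hs']
    rw [h1, h2, hJ]
    have hsub : closedBall v (1 / 4) ⊆ closedBall (0 : E n) (1 / 2) := by
      apply closedBall_subset_closedBall'
      rw [dist_zero_right, hvn]
      nlinarith
    apply setIntegral_mono_set
    · exact (hcd (1 / 2) (by linarith)).integrableOn_compact (isCompact_closedBall _ _)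
    · rw [EventuallyLE, ae_restrict_iff' measurableSet_closedBall]
      exact Eventually.of_forall fun s hs =>
        hdpos s (closedBall_subset_closedBall (by norm_num) hs)
    · exact hsub.eventuallyLE
  -- sum
  have hsum : I (1 / 4) - I 0 ≤ N * J := by
    have h1 := Finset.sum_range_sub (fun k : ℕ => I ((k : ℝ) * σ)) N
    have h2 : ∑ k ∈ Finset.range N, (I (((k + 1 : ℕ) : ℝ) * σ) - I ((k : ℝ) * σ)) ≤
        ∑ _k ∈ Finset.range N, J := Finset.sum_le_sum fun k hk => hb k (Finset.mem_range.1 hk)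
    rw [h1, Finset.sum_const, Finset.card_range, nsmul_eq_mul] at h2
    simp only [Nat.cast_zero, zero_mul] at h2
    rwa [hσ] at h2
  calc k0 * (I (1 / 4) - I 0) ≤ k0 * (N * J) := mul_le_mul_of_nonneg_left hsum hk0.le
    _ = N * (k0 * J) := by ring
    _ ≤ _ := mul_le_mul_of_nonneg_left ha hN0.le

/-- **positivity of the derivative of the mollification** -/
theorem mollP (hS : StMollS) : StMollP := by
  intro n G c κ u ℓ hκ hG hc h0 h14 hsupp hlip hu hmono z hz
  obtain ⟨a, ha⟩ : ∃ a : ℝ, a = c z := ⟨_, rfl⟩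
  have ha0 : 0 < a := by rw [ha]; exact hz
  have ha1 : a ≤ 1 / 4 := by rw [ha]; exact h14 z
  have hz1 : ‖z‖ ≤ 1 := by
    by_contra h
    push Not at h
    rw [hsupp z h] at hz
    exact lt_irrefl _ hz
  obtain ⟨ψ, hψ⟩ : ∃ ψ : E n → ℝ, ψ = fun s => ℓ (G (z + a • s)) := ⟨_, rfl⟩
  have hpt : ∀ s : E n, ‖s‖ ≤ 5 / 4 → ‖z + a • s‖ ≤ 3 / 2 := by
    intro s hs
    calc ‖z + a • s‖ ≤ ‖z‖ + ‖a • s‖ := norm_add_le _ _
      _ = ‖z‖ + a * ‖s‖ := by rw [norm_smul, Real.norm_eq_abs, abs_of_nonneg ha0.le]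
      _ ≤ 1 + 1 / 4 * (5 / 4) := by gcongr
      _ ≤ 3 / 2 := by norm_num
  have hψc : ContinuousOn ψ (closedBall 0 (5 / 4)) := by
    rw [hψ]
    apply ℓ.continuous.comp_continuousOn
    apply hG.comp (by fun_prop)
    intro s hs
    rw [mem_closedBall_zero_iff] at hs ⊢
    linarith [hpt s hs]
  have hψm : ∀ (s : E n) (τ : ℝ), 0 < τ → ‖s‖ ≤ 5 / 4 → ‖s + τ • u‖ ≤ 5 / 4 →
      ψ s < ψ (s + τ • u) := by
    intro s τ hτ hs1 hs2
    rw [hψ]
    refine hmono _ _ (hpt s hs1) (hpt _ hs2) (a * τ) (by positivity) ?_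
    have e : z + a • (s + τ • u) - (z + a • s) - (a * τ) • u = 0 := by
      rw [smul_add, smul_smul]
      abel
    rw [e, norm_zero]
    positivity
  obtain ⟨m, hm, htele⟩ := tele hψc hu hψm
  -- the difference quotients
  have hM0 : ℓ (Moll n G c z) = ∫ s in closedBall (0 : E n) 1, kr n s * ψ s := by
    rw [moll_eq ℓ hG (h0 z) (h14 z) (by linarith), hψ, ha]
  have key : ∀ N : ℕ, 1 ≤ N → 2 * m / a ≤
      (a / (2 * N))⁻¹ * (ℓ (Moll n G c (z + (a / (2 * N)) • u)) - ℓ (Moll n G c z)) := by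
    intro N hN
    have hN0 : (0 : ℝ) < N := by exact_mod_cast hN
    have hN1 : (1 : ℝ) ≤ N := by exact_mod_cast hN
    obtain ⟨σ, hσ⟩ : ∃ σ : ℝ, σ = 1 / (4 * N) := ⟨_, rfl⟩
    obtain ⟨t, ht⟩ : ∃ t : ℝ, t = a / (2 * N) := ⟨_, rfl⟩
    have hσ0 : 0 < σ := by rw [hσ]; positivity
    have ht0 : 0 < t := by rw [ht]; positivity
    have hNσ : N * σ = 1 / 4 := by rw [hσ]; field_simp
    have hσ1 : σ ≤ 1 / 4 := by nlinarith
    have htσ : t / 2 = a * σ := by rw [ht, hσ]; field_simp; norm_num
    have ht1 : t ≤ 1 / 8 := by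
      have : t = 2 * (a * σ) := by linarith
      rw [this]
      nlinarith
    rw [← ht]
    have h1 := htele N σ hN hNσ
    have hntu : ‖z + t • u‖ ≤ 5 / 4 := by
      calc ‖z + t • u‖ ≤ ‖z‖ + ‖t • u‖ := norm_add_le _ _
        _ = ‖z‖ + t := by rw [norm_smul, hu, Real.norm_eq_abs, abs_of_pos ht0, mul_one]
        _ ≤ 5 / 4 := by linarith
    have hi0 : IntegrableOn (fun s => kr n s * ψ s) (closedBall (0 : E n) 1) :=
      ((kr_cont n).continuousOn.mul (hψc.mono
        (closedBall_subset_closedBall (by norm_num)))).integrableOn_compact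
        (isCompact_closedBall _ _)
    have hnu : ∀ s ∈ closedBall (0 : E n) 1, ‖s + σ • u‖ ≤ 5 / 4 := by
      intro s hs
      rw [mem_closedBall_zero_iff] at hs
      calc ‖s + σ • u‖ ≤ ‖s‖ + ‖σ • u‖ := norm_add_le _ _
        _ = ‖s‖ + σ := by rw [norm_smul, hu, Real.norm_eq_abs, abs_of_pos hσ0, mul_one]
        _ ≤ 5 / 4 := by linarith
    have hi1 : IntegrableOn (fun s => kr n s * ψ (s + σ • u)) (closedBall (0 : E n) 1) := by
      apply ContinuousOn.integrableOn_compact (isCompact_closedBall _ _)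
      apply (kr_cont n).continuousOn.mul
      apply hψc.comp (by fun_prop)
      intro s hs
      rw [mem_closedBall_zero_iff]
      exact hnu s hs
    have hi2 : IntegrableOn (fun s => kr n s * ℓ (G (z + t • u + c (z + t • u) • s)))
        (closedBall (0 : E n) 1) := by
      apply ContinuousOn.integrableOn_compact (isCompact_closedBall _ _)
      apply (kr_cont n).continuousOn.mul
      apply ℓ.continuous.comp_continuousOn
      apply hG.comp (by fun_prop)
      intro s hs
      rw [mem_closedBall_zero_iff]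
      linarith [pt_mem (h0 (z + t • u)) (h14 (z + t • u)) hntu hs]
    have hM1 : ∫ s in closedBall (0 : E n) 1, kr n s * ψ (s + σ • u) ≤
        ℓ (Moll n G c (z + t • u)) := by
      rw [moll_eq ℓ hG (h0 _) (h14 _) hntu]
      apply setIntegral_mono_on hi1 hi2 measurableSet_closedBall
      intro s hs
      apply mul_le_mul_of_nonneg_left _ (kr_nonneg n s)
      rw [hψ]
      simp only
      refine (hmono _ _ (hpt _ (hnu s hs)) (pt_mem (h0 _) (h14 _) hntu hs) (t / 2) (by positivity)
        ?_).le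
      have e : z + t • u + c (z + t • u) • s - (z + a • (s + σ • u)) - (t / 2) • u =
          (c (z + t • u) - c z) • s := by
        rw [smul_add, smul_smul, ← htσ, ← ha, sub_smul]
        have e2 : t • u = (t / 2) • u + (t / 2) • u := by
          rw [← add_smul]; congr 1; ring
        rw [e2]
        abel
      rw [e, norm_smul, Real.norm_eq_abs]
      have h2 := hlip (z + t • u) z
      rw [add_sub_cancel_left, norm_smul, hu, Real.norm_eq_abs, abs_of_pos ht0, mul_one] at h2
      rw [mem_closedBall_zero_iff] at hs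
      calc |c (z + t • u) - c z| * ‖s‖ ≤ (κ / 2 * t) * 1 := by
            apply mul_le_mul h2 hs (norm_nonneg _) (by positivity)
        _ = κ * (t / 2) := by ring
    have h3 : ∫ s in closedBall (0 : E n) 1, kr n s * (ψ (s + σ • u) - ψ s) ≤
        ℓ (Moll n G c (z + t • u)) - ℓ (Moll n G c z) := by
      have h4 : ∫ s in closedBall (0 : E n) 1, kr n s * (ψ (s + σ • u) - ψ s) =
          (∫ s in closedBall (0 : E n) 1, kr n s * ψ (s + σ • u)) -
            ∫ s in closedBall (0 : E n) 1, kr n s * ψ s := by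
        rw [← integral_sub hi1 hi0]
        apply setIntegral_congr_fun measurableSet_closedBall
        intro s _
        simp only
        ring
      rw [h4, ← hM0]
      linarith
    have h5 : m / N ≤ ℓ (Moll n G c (z + t • u)) - ℓ (Moll n G c z) := by
      rw [div_le_iff₀ hN0]
      refine h1.trans ?_
      rw [mul_comm]
      exact mul_le_mul_of_nonneg_right h3 hN0.le
    calc 2 * m / a = t⁻¹ * (m / N) := by rw [ht]; field_simp
      _ ≤ _ := mul_le_mul_of_nonneg_left h5 (by positivity)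
  -- the derivative
  have hd : HasFDerivAt (Moll n G c) (fderiv ℝ (Moll n G c) z) z := by
    have h1 := (hS n G c hG hc h0 h14 hsupp).2.2.1 z hz
    exact (h1.differentiableAt (by simp)).hasFDerivAt
  have hd1 : HasDerivAt (fun t : ℝ => ℓ (Moll n G c (z + t • u)))
      (ℓ (fderiv ℝ (Moll n G c) z u)) 0 := by
    have h1 : HasDerivAt (fun t : ℝ => z + t • u) u 0 := by
      have := ((hasDerivAt_id (0 : ℝ)).smul_const u).const_add z
      simpa using this
    have h2 : HasFDerivAt (Moll n G c) (fderiv ℝ (Moll n G c) z) (z + (0 : ℝ) • u) := by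
      rw [zero_smul, add_zero]; exact hd
    have h3 := h2.comp_hasDerivAt (0 : ℝ) h1
    exact ℓ.hasFDerivAt.comp_hasDerivAt (0 : ℝ) h3
  rw [hasDerivAt_iff_tendsto_slope_zero] at hd1
  have htN : Tendsto (fun N : ℕ => a / (2 * ((N : ℝ) + 1))) atTop (𝓝[≠] 0) := by
    rw [tendsto_nhdsWithin_iff]
    constructor
    · have h1 : Tendsto (fun N : ℕ => a / 2 * (1 / ((N : ℝ) + 1))) atTop (𝓝 (a / 2 * 0)) :=
        tendsto_one_div_add_atTop_nhds_zero_nat.const_mul _
      rw [mul_zero] at h1
      refine h1.congr fun N => ?_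
      field_simp
    · refine Eventually.of_forall fun N => ?_
      have : 0 < a / (2 * ((N : ℝ) + 1)) := by positivity
      exact this.ne'
  have hlim := hd1.comp htN
  have hle : 2 * m / a ≤ ℓ (fderiv ℝ (Moll n G c) z u) := by
    refine ge_of_tendsto' hlim fun N => ?_
    have h1 := key (N + 1) (by omega)
    push_cast at h1
    simp only [Function.comp_apply, smul_eq_mul, zero_add, zero_smul, add_zero]
    exact h1
  exact lt_of_lt_of_le (by positivity) hle

end Pool.Agent.Y270.SH
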